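import Pool.Agent.Lib.P74a0dc.Final

set_option autoImplicit false

/-!
For every fixed `k ≥ 2`, recognising `k`-th powers of strongly chordal graphs is NP-hard.
-/

namespace Pool.Agent.Results.MP_74a0dc_lc.NPHard

open Pool.Agent.Lib.P2ba8ab Pool.Agent.Lib.PolyTime Pool.Agent.Lib.P74a0dc

/-- Polynomial-time many-one reducibility between problems whose inputs are finite simple graphs
(given by their adjacency matrices): some map `f` from graphs to graphs is computed by a Turing
machine in polynomial time, and `g` is a yes-instance of `P` iff `f g` is one of `Q`. -/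
def Reduces (P Q : Gr → Prop) : Prop :=
  ∃ f : Gr → Gr, Nonempty (Turing.TM2ComputableInPolyTime Gr.encode Gr.encode f) ∧
    ∀ g, P g ↔ Q (f g)

/-- For every `k ≥ 2`, 3-colourability reduces in polynomial time to the problem whether a given
graph is the `k`-th power of a strongly chordal graph. -/
theorem result (k : ℕ) (hk : 2 ≤ k) :
    Reduces (fun g => g.G.Colorable 3)
      (fun g => ∃ H : SimpleGraph (Fin g.n), StronglyChordal H ∧ gpow H k = g.G) := by
  obtain ⟨q, rfl⟩ := Nat.exists_eq_add_of_le' hk
  refine ⟨red q, ?_, red_spec q⟩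
  obtain ⟨⟨tm, time, hout⟩⟩ := PolyC.toTM2 Gr.encode (D := fun _ => True)
    (red q) Gr.encode (poly_red q)
  exact ⟨⟨tm, time, fun g => hout ⟨g, trivial⟩⟩⟩

end Pool.Agent.Results.MP_74a0dc_lc.NPHard
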